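import Mathlib

set_option autoImplicit false

namespace Pool.Agent.Results.MP_dec24c_co.Main

open SimpleGraph

/-- A geodesic ray: distinct vertices, consecutive ones adjacent, every subpath a shortest path. -/
def GeoRay {V : Type*} (G : SimpleGraph V) (ρ : ℕ → V) : Prop :=
  Function.Injective ρ ∧ (∀ i, G.Adj (ρ i) (ρ (i + 1))) ∧
    ∀ i j, i ≤ j → G.dist (ρ i) (ρ j) = j - i

/-- The edge `uv` is directed `u → v` in `G_W`. -/
def Dir {V : Type*} (G : SimpleGraph V) (W : Finset V) (u v : V) : Prop :=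
  G.Adj u v ∧
    (∃ ρ, GeoRay G ρ ∧ ρ 0 ∈ W ∧ u ∈ Set.range ρ ∧ v ∈ Set.range ρ) ∧
    ∀ ρ, GeoRay G ρ → ρ 0 ∈ W → u ∈ Set.range ρ → v ∈ Set.range ρ →
      ∃ i, ρ i = u ∧ ρ (i + 1) = v

/-- `xy` is an edge that is undirected or directed `x → y` in `G_W`. -/
def Step {V : Type*} (G : SimpleGraph V) (W : Finset V) (x y : V) : Prop :=
  G.Adj x y ∧ ((¬ Dir G W x y ∧ ¬ Dir G W y x) ∨ Dir G W x y)

/-- `G_W` has a `u`-`v` path: distinct vertices `u :: l` ending at `v`. -/
def HasPath {V : Type*} (G : SimpleGraph V) (W : Finset V) (u v : V) : Prop :=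
  ∃ l : List V, (u :: l).Nodup ∧ (u :: l).getLast (List.cons_ne_nil u l) = v ∧
    (u :: l).IsChain (Step G W)

def BadPair {V : Type*} (G : SimpleGraph V) (W : Finset V) (u v : V) : Prop :=
  u ≠ v ∧ ¬ HasPath G W u v ∧ ¬ HasPath G W v u

def StrongResolving {V : Type*} (G : SimpleGraph V) (S : Finset V) : Prop :=
  ∀ u v, u ≠ v → ∃ w ∈ S,
    G.dist w v = G.dist w u + G.dist u v ∨ G.dist w u = G.dist w v + G.dist v u

section
variable {V : Type*} {G : SimpleGraph V}

def Geo (G : SimpleGraph V) (s : V) (ρ : ℕ → V) : Prop :=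
  (∀ i, G.Adj (ρ i) (ρ (i + 1))) ∧ ∀ j, G.dist s (ρ j) = G.dist s (ρ 0) + j

def Ext (G : SimpleGraph V) (s x : V) : Prop := ∃ ρ, ρ 0 = x ∧ Geo G s ρ

def Gd (G : SimpleGraph V) (x y : V) : Prop := ∃ ρ, GeoRay G ρ ∧ ρ 0 = x ∧ ρ 1 = y

def cns (p : V) (ρ : ℕ → V) : ℕ → V
  | 0 => p
  | (n + 1) => ρ n

theorem adj_dist {x y : V} (h : G.Adj x y) : G.dist x y = 1 := dist_eq_one_iff_adj.mpr h

theorem nbr (hc : G.Connected) {u v : V} (h : G.dist u v ≠ 0) :
    ∃ y, G.Adj u y ∧ G.dist y v + 1 = G.dist u v := by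
  obtain ⟨p, hp⟩ := hc.exists_walk_length_eq_dist u v
  cases p with
  | nil => simp at h
  | cons ha q =>
    rename_i y
    refine ⟨y, ha, ?_⟩
    have h1 := dist_le q
    have h2 := hc.dist_triangle (u := u) (v := y) (w := v)
    have h3 := adj_dist ha
    simp at hp
    omega

theorem geo_ray (hc : G.Connected) {s : V} {ρ : ℕ → V} (h : Geo G s ρ) : GeoRay G ρ := by
  obtain ⟨ha, hd⟩ := h
  refine ⟨?_, ha, ?_⟩
  · intro i j hij
    have h1 := hd i
    have h2 := hd j
    rw [hij] at h1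
    omega
  · intro i j hij
    have hle : ∀ k, G.dist (ρ i) (ρ (i + k)) ≤ k := by
      intro k
      induction k with
      | zero => simp
      | succ k ih =>
        have h2 := hc.dist_triangle (u := ρ i) (v := ρ (i + k)) (w := ρ (i + k + 1))
        have h3 := adj_dist (ha (i + k))
        have : i + (k + 1) = i + k + 1 := by ring
        rw [this]
        omega
    have h1 := hle (j - i)
    have h4 : i + (j - i) = j := by omega
    rw [h4] at h1
    have h2 := hc.dist_triangle (u := s) (v := ρ i) (w := ρ j)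
    have h5 := hd i
    have h6 := hd j
    omega

theorem geo_cns {s p : V} {ρ : ℕ → V} (h : Geo G s ρ) (ha : G.Adj p (ρ 0))
    (hd : G.dist s p + 1 = G.dist s (ρ 0)) : Geo G s (cns p ρ) := by
  refine ⟨?_, ?_⟩
  · intro i
    cases i with
    | zero => exact ha
    | succ i => exact h.1 i
  · intro j
    cases j with
    | zero => simp
    | succ j =>
      have := h.2 j
      simp only [cns]
      omega

theorem ext_back (hc : G.Connected) {s p x : V} (h : Ext G s x) (ha : G.Adj p x)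
    (hd : G.dist s p + 1 = G.dist s x) : Ext G s p ∧ Gd G p x := by
  obtain ⟨ρ, rfl, hρ⟩ := h
  have := geo_cns hρ ha hd
  exact ⟨⟨cns p ρ, rfl, this⟩, ⟨cns p ρ, geo_ray hc this, rfl, rfl⟩⟩

theorem geo_reach (hc : G.Connected) {s v : V} (h : Ext G s v) :
    ∀ n u, G.dist u v = n → G.dist s v = G.dist s u + G.dist u v →
      Ext G s u ∧ Relation.ReflTransGen (Gd G) u v := by
  intro n
  induction n with
  | zero =>
    intro u h0 _
    have : u = v := (hc.dist_eq_zero_iff).mp h0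
    subst this
    exact ⟨h, Relation.ReflTransGen.refl⟩
  | succ n ih =>
    intro u hn hs
    obtain ⟨y, hy, hy2⟩ := nbr hc (u := u) (v := v) (by omega)
    have h1 := hc.dist_triangle (u := s) (v := u) (w := y)
    have h2 := hc.dist_triangle (u := s) (v := y) (w := v)
    have h3 := adj_dist hy
    obtain ⟨e, r⟩ := ih y (by omega) (by omega)
    obtain ⟨e2, g⟩ := ext_back hc e hy (by omega)
    exact ⟨e2, Relation.ReflTransGen.head g r⟩

theorem ray_tail {ρ : ℕ → V} (h : GeoRay G ρ) (k : ℕ) : GeoRay G (fun j => ρ (k + j)) := by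
  refine ⟨?_, fun i => h.2.1 (k + i), ?_⟩
  · intro i j hij
    have := h.1 hij
    omega
  · intro i j hij
    have := h.2.2 (k + i) (k + j) (by omega)
    beta_reduce
    omega

theorem ray_base (hc : G.Connected) {S : Finset V} (hS : StrongResolving G S) {ρ : ℕ → V}
    (h : GeoRay G ρ) : ∃ s ∈ S, Geo G s ρ := by
  by_contra hne
  have h1 : ∀ s, ∃ m, s ∈ S → G.dist s (ρ m) ≠ G.dist s (ρ 0) + m := by
    intro s
    by_cases hs : s ∈ S
    · by_contra h2
      push Not at h2
      exact hne ⟨s, hs, h.2.1, fun j => (h2 j).2⟩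
    · exact ⟨0, fun h => absurd h hs⟩
  choose m hm using h1
  set M := S.sup (fun s => m s + G.dist s (ρ 0)) + 1 with hM
  have hne2 : ρ 0 ≠ ρ M := fun e => by
    have := h.1 e
    omega
  obtain ⟨w, hw, hr⟩ := hS _ _ hne2
  have hle : m w + G.dist w (ρ 0) ≤ S.sup (fun s => m s + G.dist s (ρ 0)) :=
    Finset.le_sup (f := fun s => m s + G.dist s (ρ 0)) hw
  have e1 := h.2.2 0 M (by omega)
  have e2 := h.2.2 0 (m w) (by omega)
  have e3 := h.2.2 (m w) M (by omega)
  have t1 := hc.dist_triangle (u := w) (v := ρ 0) (w := ρ (m w))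
  have t2 := hc.dist_triangle (u := w) (v := ρ (m w)) (w := ρ M)
  have := hm w hw
  have c : G.dist (ρ M) (ρ 0) = G.dist (ρ 0) (ρ M) := dist_comm
  omega

theorem ball_finite (hc : G.Connected) {S : Finset V} (hS : StrongResolving G S) (o : V) (r : ℕ) :
    {x | G.dist o x ≤ r}.Finite := by
  classical
  refine Set.Finite.of_injOn (f := fun x => fun s : S => G.dist s.1 x)
    (t := Set.Iic (fun s : S => G.dist s.1 o + r)) ?_ ?_ (Set.finite_Iic _)
  · intro x hx s
    have := hc.dist_triangle (u := s.1) (v := o) (w := x)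
    simp only [Set.mem_setOf_eq] at hx
    beta_reduce
    omega
  · intro x _ y _ hxy
    by_contra hne
    obtain ⟨w, hw, hr⟩ := hS _ _ hne
    have h1 := congrFun hxy ⟨w, hw⟩
    have h2 : G.dist x y ≠ 0 := fun h => hne (hc.dist_eq_zero_iff.mp h)
    have c : G.dist y x = G.dist x y := dist_comm
    simp only at h1
    omega

theorem far (hc : G.Connected) {S : Finset V} (hS : StrongResolving G S) (o : V) :
    ∃ K, ∀ v, K < G.dist o v → ∀ s ∈ S, Ext G s v := by
  classical
  set sh : V → (S → ℕ) := fun v s => G.dist s.1 v + G.dist o s.1 - G.dist o v with hsh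
  have hB : ∀ c : S → ℕ, ∃ B, (∃ B', ∀ v, sh v = c → G.dist o v ≤ B') →
      ∀ v, sh v = c → G.dist o v ≤ B := by
    intro c
    by_cases h : ∃ B', ∀ v, sh v = c → G.dist o v ≤ B'
    · obtain ⟨B, hB⟩ := h
      exact ⟨B, fun _ => hB⟩
    · exact ⟨0, fun h' => absurd h' h⟩
  choose B hB using hB
  refine ⟨(Finset.Iic (fun s : S => 2 * G.dist o s.1)).sup B, ?_⟩
  intro v hv
  have hmem : sh v ∈ Finset.Iic (fun s : S => 2 * G.dist o s.1) := by
    rw [Finset.mem_Iic]
    intro s
    have := hc.dist_triangle (u := s.1) (v := o) (w := v)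
    have c : G.dist s.1 o = G.dist o s.1 := dist_comm
    simp only [hsh]
    omega
  have hle : B (sh v) ≤ (Finset.Iic (fun s : S => 2 * G.dist o s.1)).sup B :=
    Finset.le_sup (f := B) hmem
  have hunb : ∀ b, ∃ z, sh z = sh v ∧ b < G.dist o z := by
    intro b
    by_contra hn
    push Not at hn
    have := hB (sh v) ⟨b, hn⟩ v rfl
    omega
  have hsame : ∀ z z', sh z = sh z' → G.dist o z < G.dist o z' →
      ∀ s ∈ S, G.dist s z' = G.dist s z + G.dist z z' := by
    intro z z' hz hlt s hs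
    have hne : z ≠ z' := fun e => by
      rw [e] at hlt
      omega
    obtain ⟨w, hw, hr⟩ := hS _ _ hne
    have a1 := congrFun hz ⟨w, hw⟩
    have a2 := congrFun hz ⟨s, hs⟩
    simp only [hsh] at a1 a2
    have t1 := hc.dist_triangle (u := o) (v := w) (w := z)
    have t2 := hc.dist_triangle (u := o) (v := w) (w := z')
    have t3 := hc.dist_triangle (u := o) (v := s) (w := z)
    have t4 := hc.dist_triangle (u := o) (v := s) (w := z')
    omega
  set P : V → Prop := fun x => ∃ z, sh z = sh v ∧ ∀ s ∈ S, G.dist s z = G.dist s x + G.dist x z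
    with hP
  have hstep : ∀ x : {x // P x}, ∃ y : {x // P x}, G.Adj x.1 y.1 ∧
      ∀ s ∈ S, G.dist s y.1 = G.dist s x.1 + 1 := by
    rintro ⟨x, z, hz, hx⟩
    obtain ⟨z', hz', hlt⟩ := hunb (G.dist o z + G.dist o x)
    have h1 := hsame z z' (hz.trans hz'.symm) (by omega)
    have hne : G.dist x z' ≠ 0 := fun h => by
      have := hc.dist_eq_zero_iff.mp h
      rw [this] at hlt
      omega
    obtain ⟨y, hy, hy2⟩ := nbr hc hne
    have key : ∀ s ∈ S, G.dist s y = G.dist s x + 1 ∧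
        G.dist s z' = G.dist s y + G.dist y z' := by
      intro s hs
      have a1 := hx s hs
      have a2 := h1 s hs
      have t1 := hc.dist_triangle (u := x) (v := z) (w := z')
      have t2 := hc.dist_triangle (u := s) (v := x) (w := y)
      have t3 := hc.dist_triangle (u := s) (v := y) (w := z')
      have t4 := adj_dist hy
      omega
    exact ⟨⟨y, z', hz', fun s hs => (key s hs).2⟩, hy, fun s hs => (key s hs).1⟩
  choose f hf using hstep
  have hv0 : P v := ⟨v, rfl, fun s _ => by simp⟩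
  intro s hs
  refine ⟨fun j => (f^[j] ⟨v, hv0⟩).1, rfl, ?_, ?_⟩
  · intro i
    simp only [Function.iterate_succ_apply']
    exact (hf _).1
  · intro j
    induction j with
    | zero => simp
    | succ j ih =>
      simp only [Function.iterate_succ_apply'] at ih ⊢
      rw [(hf _).2 s hs]
      omega

theorem wray (hc : G.Connected) {S W : Finset V} {U : Set V}
    (hW : ∀ x, x ∈ W ↔ x ∈ U ∧ (x ∈ S ∨ ∃ y, y ∉ U ∧ G.Adj x y)) {s : V} (hs : s ∈ S) :
    ∀ n (ρ : ℕ → V), G.dist s (ρ 0) = n → ρ 0 ∈ U → Geo G s ρ →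
      ∃ ρ', GeoRay G ρ' ∧ ρ' 0 ∈ W ∧ ∃ k, ∀ j, ρ' (k + j) = ρ j := by
  intro n
  induction n with
  | zero =>
    intro ρ h0 hU hg
    have : s = ρ 0 := hc.dist_eq_zero_iff.mp h0
    exact ⟨ρ, geo_ray hc hg, (hW _).mpr ⟨hU, Or.inl (this ▸ hs)⟩, 0, fun j => by simp⟩
  | succ n ih =>
    intro ρ hn hU hg
    have c : G.dist (ρ 0) s = G.dist s (ρ 0) := dist_comm
    obtain ⟨p, hp, hp2⟩ := nbr hc (u := ρ 0) (v := s) (by omega)
    have c2 : G.dist p s = G.dist s p := dist_comm
    by_cases hpU : p ∈ U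
    · obtain ⟨ρ', h1, h2, k, hk⟩ := ih (cns p ρ) (by simp only [cns]; omega) hpU
        (geo_cns hg hp.symm (by omega))
      refine ⟨ρ', h1, h2, k + 1, fun j => ?_⟩
      have := hk (j + 1)
      have e : k + 1 + j = k + (j + 1) := by ring
      rw [e, this]
      rfl
    · exact ⟨ρ, geo_ray hc hg, (hW _).mpr ⟨hU, Or.inr ⟨p, hpU, hp⟩⟩, 0, fun j => by simp⟩

theorem step_of {W : Finset V} {x y : V} (ha : G.Adj x y) (h : ¬ Dir G W y x) : Step G W x y := by
  refine ⟨ha, ?_⟩
  by_cases h2 : Dir G W x y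
  · exact Or.inr h2
  · exact Or.inl ⟨h2, h⟩

theorem step_out {S W : Finset V} {U : Set V}
    (hW : ∀ x, x ∈ W ↔ x ∈ U ∧ (x ∈ S ∨ ∃ y, y ∉ U ∧ G.Adj x y))
    (hcl : ∀ x y, x ∈ U → Gd G x y → y ∈ U) {x y : V} (ha : G.Adj x y) (h : x ∉ U ∨ y ∉ U) :
    Step G W x y := by
  refine step_of ha ?_
  rintro ⟨_, ⟨ρ, hρ, h0, ⟨i, hi⟩, ⟨j, hj⟩⟩, _⟩
  have hall : ∀ k, ρ k ∈ U := by
    intro k
    induction k with
    | zero => exact ((hW _).mp h0).1
    | succ k ih => exact hcl _ _ ih ⟨_, ray_tail hρ k, rfl, rfl⟩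
  rcases h with h | h
  · exact h (hj ▸ hall j)
  · exact h (hi ▸ hall i)

theorem step_gd (hc : G.Connected) {S W : Finset V} (hS : StrongResolving G S) {U : Set V}
    (hW : ∀ x, x ∈ W ↔ x ∈ U ∧ (x ∈ S ∨ ∃ y, y ∉ U ∧ G.Adj x y))
    (hcl : ∀ x y, x ∈ U → Gd G x y → y ∈ U) {x y : V} (h : Gd G x y) : Step G W x y := by
  obtain ⟨ρ, hρ, rfl, rfl⟩ := h
  by_cases hU : ρ 0 ∈ U
  · obtain ⟨s, hs, hg⟩ := ray_base hc hS hρ
    obtain ⟨ρ', h1, h2, k, hk⟩ := wray hc hW hs _ ρ rfl hU hg
    refine step_of (hρ.2.1 0) ?_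
    rintro ⟨_, _, h3⟩
    obtain ⟨i, hi1, hi2⟩ := h3 ρ' h1 h2 ⟨_, hk 1⟩ ⟨_, hk 0⟩
    have a1 := h1.1 (hi1.trans (hk 1).symm)
    have a2 := h1.1 (hi2.trans (hk 0).symm)
    omega
  · exact step_out hW hcl (hρ.2.1 0) (Or.inl hU)

theorem hasPath_of {W : Finset V} {u v : V} (h : Relation.ReflTransGen (Step G W) u v) :
    HasPath G W u v := by
  induction h using Relation.ReflTransGen.head_induction_on with
  | refl => exact ⟨[], by simp, rfl, by simp⟩
  | head hab _ ih =>
    rename_i a b _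
    obtain ⟨l, h1, h2, h3⟩ := ih
    by_cases hm : a ∈ b :: l
    · obtain ⟨s, t, hst⟩ := List.append_of_mem hm
      refine ⟨t, ?_, ?_, ?_⟩
      · rw [hst] at h1
        exact (List.nodup_append.mp h1).2.1
      · rw [← h2]
        simp only [hst]
        simp
      · rw [hst] at h3
        exact h3.right_of_append
    · refine ⟨b :: l, List.nodup_cons.mpr ⟨hm, h1⟩, ?_, ?_⟩
      · rw [← h2]
        simp
      · exact List.IsChain.cons_cons hab h3

theorem exW (hc : G.Connected) {S : Finset V} (hS : StrongResolving G S) (o : V) {U : Set V}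
    {R : ℕ} (hR : ∀ x, R < G.dist o x → x ∈ U) {ρ : ℕ → V} (hρ : GeoRay G ρ) :
    ∃ W : Finset V, W.Nonempty ∧ ∀ x, x ∈ W ↔ x ∈ U ∧ (x ∈ S ∨ ∃ y, y ∉ U ∧ G.Adj x y) := by
  have hfin : {x | x ∈ U ∧ (x ∈ S ∨ ∃ y, y ∉ U ∧ G.Adj x y)}.Finite := by
    refine (S.finite_toSet.union (ball_finite hc hS o (R + 1))).subset ?_
    rintro x ⟨_, h | ⟨y, hy, ha⟩⟩
    · exact Or.inl h
    · right
      have h1 : ¬ R < G.dist o y := fun h => hy (hR y h)
      have t := hc.dist_triangle (u := o) (v := y) (w := x)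
      have := adj_dist ha.symm
      simp only [Set.mem_setOf_eq]
      omega
  have hW : ∀ x, x ∈ hfin.toFinset ↔ x ∈ U ∧ (x ∈ S ∨ ∃ y, y ∉ U ∧ G.Adj x y) := by
    intro x
    exact hfin.mem_toFinset
  refine ⟨hfin.toFinset, ?_, hW⟩
  set m := R + G.dist o (ρ 0) + 1 with hm
  have hU : ρ (m + 0) ∈ U := by
    apply hR
    have e := hρ.2.2 0 (m + 0) (by omega)
    have t := hc.dist_triangle (u := ρ 0) (v := o) (w := ρ (m + 0))
    have c : G.dist (ρ 0) o = G.dist o (ρ 0) := dist_comm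
    omega
  obtain ⟨s, hs, hg⟩ := ray_base hc hS (ray_tail hρ m)
  obtain ⟨ρ', _, h2, _⟩ := wray hc hW hs _ _ rfl hU hg
  exact ⟨_, h2⟩

theorem rmono {r r' : V → V → Prop} {u v : V} (h : Relation.ReflTransGen r u v)
    (hr : ∀ a b, r a b → r' a b) : Relation.ReflTransGen r' u v := by
  induction h with
  | refl => exact Relation.ReflTransGen.refl
  | tail _ g ih => exact ih.tail (hr _ _ g)

theorem reach_all (hc : G.Connected) {r : V → V → Prop}
    (h : ∀ x y, G.Adj x y → Relation.ReflTransGen r x y) (u v : V) :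
    Relation.ReflTransGen r u v := by
  obtain ⟨p⟩ := hc.preconnected u v
  induction p with
  | nil => exact Relation.ReflTransGen.refl
  | cons ha _ ih => exact (h _ _ ha).trans ih

theorem main (hc : G.Connected) {S : Finset V} (hS : StrongResolving G S) {o : V} (ho : o ∈ S) :
    ∃ W : Finset V, W.Nonempty ∧ ∀ u v, u ≠ v →
      Relation.ReflTransGen (Step G W) u v ∨ Relation.ReflTransGen (Step G W) v u := by
  by_cases hray : ∃ ρ, GeoRay G ρ
  swap
  · refine ⟨{o}, by simp, fun u v _ => Or.inl (reach_all hc ?_ u v)⟩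
    intro x y ha
    refine Relation.ReflTransGen.single (step_of ha ?_)
    rintro ⟨_, ⟨ρ, hρ, _⟩, _⟩
    exact hray ⟨ρ, hρ⟩
  obtain ⟨ρ, hρ⟩ := hray
  obtain ⟨K, hK⟩ := far hc hS o
  set U : ℕ → Set V := fun r => {x | ∃ z, r < G.dist o z ∧ Relation.ReflTransGen (Gd G) z x}
    with hU
  have hcl : ∀ r x y, x ∈ U r → Gd G x y → y ∈ U r := by
    rintro r x y ⟨z, hz, h⟩ g
    exact ⟨z, hz, h.tail g⟩
  by_cases hB : ∃ z, ∀ r, z ∈ U r
  · obtain ⟨z, hz⟩ := hB
    have rf : ∀ z, ∃ R, ∀ v, R < G.dist o v → Relation.ReflTransGen (Gd G) z v := by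
      intro z
      refine ⟨K + G.dist o z + 2 * S.sup (fun s => G.dist o s), fun v hv => ?_⟩
      have hne : z ≠ v := fun e => by
        rw [e] at hv
        omega
      obtain ⟨w, hw, hr⟩ := hS _ _ hne
      have hle : G.dist o w ≤ S.sup (fun s => G.dist o s) :=
        Finset.le_sup (f := fun s => G.dist o s) hw
      have t1 := hc.dist_triangle (u := o) (v := w) (w := v)
      have t2 := hc.dist_triangle (u := w) (v := o) (w := z)
      have c : G.dist w o = G.dist o w := dist_comm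
      exact (geo_reach hc (hK v (by omega) w hw) _ z rfl (by omega)).2
    have hcl2 : ∀ x y, x ∈ {x | ∀ r, x ∈ U r} → Gd G x y → y ∈ {x | ∀ r, x ∈ U r} :=
      fun x y hx g r => hcl r x y (hx r) g
    obtain ⟨R, hR⟩ := rf z
    have hR2 : ∀ x, R < G.dist o x → x ∈ {x | ∀ r, x ∈ U r} := by
      intro x hx r
      obtain ⟨z', h1, h2⟩ := hz r
      exact ⟨z', h1, h2.trans (hR x hx)⟩
    obtain ⟨W, hne, hW⟩ := exW hc hS o hR2 hρ
    refine ⟨W, hne, fun u v _ => Or.inl (reach_all hc ?_ u v)⟩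
    intro x y ha
    by_cases hy : y ∈ {x | ∀ r, x ∈ U r}
    · obtain ⟨R', hR'⟩ := rf x
      obtain ⟨z', h1, h2⟩ := hy R'
      exact rmono ((hR' z' h1).trans h2) (fun a b g => step_gd hc hS hW hcl2 g)
    · exact Relation.ReflTransGen.single (step_out hW hcl2 ha (Or.inr hy))
  · push Not at hB
    choose rr hrr using hB
    set r := (ball_finite hc hS o K).toFinset.sup rr with hr
    have hin : ∀ x, x ∈ U r → K < G.dist o x := by
      rintro x ⟨z, hz, h⟩
      by_contra hn
      have hle : rr x ≤ r := Finset.le_sup (f := rr) (by simpa using hn)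
      exact hrr x ⟨z, by omega, h⟩
    have hR2 : ∀ x, r < G.dist o x → x ∈ U r := fun x hx => ⟨x, hx, Relation.ReflTransGen.refl⟩
    obtain ⟨W, hne, hW⟩ := exW hc hS o hR2 hρ
    have hout : ∀ n x, G.dist o x = n → x ∉ U r →
        Relation.ReflTransGen (Step G W) x o ∧ Relation.ReflTransGen (Step G W) o x := by
      intro n
      induction n with
      | zero =>
        intro x h0 _
        have : o = x := hc.dist_eq_zero_iff.mp h0
        subst this
        exact ⟨Relation.ReflTransGen.refl, Relation.ReflTransGen.refl⟩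
      | succ n ih =>
        intro x hn hx
        have c : G.dist x o = G.dist o x := dist_comm
        obtain ⟨p, hp, hp2⟩ := nbr hc (u := x) (v := o) (by omega)
        have c2 : G.dist p o = G.dist o p := dist_comm
        have hpU : p ∉ U r := by
          intro hpU
          have := hin p hpU
          exact hx (hcl r p x hpU (ext_back hc (hK x (by omega) o ho) hp.symm (by omega)).2)
        obtain ⟨a, b⟩ := ih p (by omega) hpU
        exact ⟨a.head (step_out hW (hcl r) hp (Or.inl hx)),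
          b.tail (step_out hW (hcl r) hp.symm (Or.inr hx))⟩
    have hfrom : ∀ v, Relation.ReflTransGen (Step G W) o v := by
      intro v
      by_cases hv : v ∈ U r
      · exact rmono (geo_reach hc (hK v (hin v hv) o ho) _ o rfl (by simp)).2
          (fun a b g => step_gd hc hS hW (hcl r) g)
      · exact (hout _ v rfl hv).2
    refine ⟨W, hne, fun u v huv => ?_⟩
    by_cases hu : u ∈ U r
    · by_cases hv : v ∈ U r
      · obtain ⟨w, hw, h | h⟩ := hS u v huv
        · exact Or.inl (rmono (geo_reach hc (hK v (hin v hv) w hw) _ u rfl h).2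
            (fun a b g => step_gd hc hS hW (hcl r) g))
        · exact Or.inr (rmono (geo_reach hc (hK u (hin u hu) w hw) _ v rfl h).2
            (fun a b g => step_gd hc hS hW (hcl r) g))
      · exact Or.inr ((hout _ v rfl hv).1.trans (hfrom u))
    · exact Or.inl ((hout _ u rfl hu).1.trans (hfrom v))

end

theorem result {V : Type*} (G : SimpleGraph V) (hc : G.Connected)
    (h : ∀ W : Finset V, W.Nonempty → ∃ u v, BadPair G W u v) :
    ¬ ∃ S : Finset V, StrongResolving G S := by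
  classical
  rintro ⟨S, hS⟩
  obtain ⟨o⟩ := hc.nonempty
  have hS' : StrongResolving G (insert o S) := by
    intro u v huv
    obtain ⟨w, hw, hr⟩ := hS u v huv
    exact ⟨w, Finset.mem_insert_of_mem hw, hr⟩
  obtain ⟨W, hne, hW⟩ := main hc hS' (Finset.mem_insert_self o S)
  obtain ⟨u, v, huv, h1, h2⟩ := h W hne
  rcases hW u v huv with h3 | h3
  · exact h1 (hasPath_of h3)
  · exact h2 (hasPath_of h3)

end Pool.Agent.Results.MP_dec24c_co.Main
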